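import Pool.Agent.X234.PF.Seq

/-!
# MP_c5a58e_co: Pfaffians of Motzkin, Delannoy, Schröder and Narayana sequences
-/

set_option autoImplicit false

namespace Pool.Agent.Results.MP_c5a58e_co.FourPfaffians

open Finset Polynomial Pool.Agent.X234.PF Pool.Agent.X234.PF.Ch

lemma pf_smul {R : Type*} [CommRing R] [Algebra ℚ R] (n : ℕ) (c : R)
    (A : Matrix (Fin (2 * n)) (Fin (2 * n)) R) : pf n (c • A) = c ^ n * pf n A := by
  unfold pf
  rw [mul_smul_comm, Finset.mul_sum]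
  congr 1
  refine Finset.sum_congr rfl fun σ _ => ?_
  rw [mul_smul_comm]
  congr 1
  simp only [Matrix.smul_apply, smul_eq_mul, Finset.prod_mul_distrib, Finset.prod_const,
    Finset.card_univ, Fintype.card_fin]

lemma sum_two_mul (n : ℕ) : n + ∑ k ∈ range n, 2 * k = n ^ 2 := by
  induction n with
  | zero => simp
  | succ n ih =>
    rw [Finset.sum_range_succ]
    linarith [ih, (by ring : (n + 1) ^ 2 = n ^ 2 + 2 * n + 1)]

lemma sum_two_mul' (n : ℕ) : n + ∑ k ∈ range n, (2 * k + 2) = (n + 1) ^ 2 - 1 := by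
  have h : n + ∑ k ∈ range n, (2 * k + 2) + 1 = (n + 1) ^ 2 := by
    induction n with
    | zero => simp
    | succ n ih =>
      rw [Finset.sum_range_succ]
      linarith [ih, (by ring : (n + 1 + 1) ^ 2 = (n + 1) ^ 2 + 2 * n + 3)]
  omega

/-- For every `n ≥ 1`, the four Pfaffian evaluations (rows and columns numbered by
`i + 1, j + 1 ∈ {1, …, 2 n}`; the entry with index `(1, 1)` vanishes because of the factor
`j - i`, so the truncated subtraction in its index does not matter):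
(1) `Pf ((j - i) M_{i+j-3}) = ∏_{k<n} (4 k + 1)`,
(2) `Pf ((j - i) D_{i+j-3}) = 2^(n²-1) (2 n - 1) ∏_{k=1}^{n-1} (4 k - 1)`,
(3) `Pf ((j - i) S_{i+j-2}) = 2^(n²) ∏_{k<n} (4 k + 1)`,
(4) `Pf ((j - i) N_{i+j-2}(a)) = a^(n²) ∏_{k<n} (4 k + 1)` (an identity of polynomials in `a`). -/
theorem result (n : ℕ) (hn : 1 ≤ n) :
    pf n (Matrix.of fun i j : Fin (2 * n) => (((j : ℕ) : ℚ) - (i : ℕ)) *
      (motzkin (((i : ℕ) + 1) + ((j : ℕ) + 1) - 3) : ℚ)) = ∏ k ∈ range n, (4 * (k : ℚ) + 1) ∧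
    pf n (Matrix.of fun i j : Fin (2 * n) => (((j : ℕ) : ℚ) - (i : ℕ)) *
      (delannoy (((i : ℕ) + 1) + ((j : ℕ) + 1) - 3) : ℚ)) =
        2 ^ (n ^ 2 - 1) * (2 * (n : ℚ) - 1) * ∏ k ∈ Ico 1 n, (4 * (k : ℚ) - 1) ∧
    pf n (Matrix.of fun i j : Fin (2 * n) => (((j : ℕ) : ℚ) - (i : ℕ)) *
      (schroeder (((i : ℕ) + 1) + ((j : ℕ) + 1) - 2) : ℚ)) =
        2 ^ (n ^ 2) * ∏ k ∈ range n, (4 * (k : ℚ) + 1) ∧
    pf n (Matrix.of fun i j : Fin (2 * n) => (((j : ℕ) : ℚ[X]) - (i : ℕ)) *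
      narayana (((i : ℕ) + 1) + ((j : ℕ) + 1) - 2)) =
        X ^ (n ^ 2) * ∏ k ∈ range n, (4 * (k : ℚ[X]) + 1) := by
  refine ⟨?_, ?_, ?_, ?_⟩
  · have h := pf_semi n (1 : ℚ) 1
    simp only [one_pow, mul_one] at h
    rw [← h]
    congr 1
    ext i j
    simp only [Matrix.of_apply]
    rw [show (i : ℕ) + 1 + ((j : ℕ) + 1) - 3 = (i : ℕ) + (j : ℕ) - 1 by omega, motzkin_eq]
  · obtain ⟨m, rfl⟩ : ∃ m, n = m + 1 := ⟨n - 1, by omega⟩
    have h := pf_arc m (2 : ℚ) 3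
    have e : pf (m + 1) (Matrix.of fun i j : Fin (2 * (m + 1)) => (((j : ℕ) : ℚ) - (i : ℕ)) *
        (delannoy (((i : ℕ) + 1) + ((j : ℕ) + 1) - 3) : ℚ)) =
        pf (m + 1) (Matrix.of fun i j : Fin (2 * (m + 1)) =>
          (((j : ℕ) : ℚ) - (i : ℕ)) * Lm 2 (2 : ℚ) ((X + C 3) ^ ((i : ℕ) + (j : ℕ) - 1))) := by
      congr 1
      ext i j
      simp only [Matrix.of_apply]
      rw [show (i : ℕ) + 1 + ((j : ℕ) + 1) - 3 = (i : ℕ) + (j : ℕ) - 1 by omega, delannoy_eq]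
    rw [e, h, Finset.prod_Ico_eq_prod_range, Nat.add_sub_cancel, ← sum_two_mul']
    have e2 : ∏ k ∈ range m, (2 * (4 * (k : ℚ) + 3) * 2 ^ (2 * k + 1)) =
        2 ^ (∑ k ∈ range m, (2 * k + 2)) * ∏ k ∈ range m, (4 * ((1 + k : ℕ) : ℚ) - 1) := by
      rw [← Finset.prod_pow_eq_pow_sum, ← Finset.prod_mul_distrib]
      refine Finset.prod_congr rfl fun k _ => ?_
      push_cast
      ring
    rw [e2, pow_add]
    push_cast
    ring
  · have h := pf_semi n (2 : ℚ) 3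
    have e : (Matrix.of fun i j : Fin (2 * n) => (((j : ℕ) : ℚ) - (i : ℕ)) *
        (schroeder (((i : ℕ) + 1) + ((j : ℕ) + 1) - 2) : ℚ)) =
        (2 : ℚ) • (Matrix.of fun i j : Fin (2 * n) =>
          (((j : ℕ) : ℚ) - (i : ℕ)) * Lm 4 (2 : ℚ) ((X + C 3) ^ ((i : ℕ) + (j : ℕ) - 1))) := by
      ext i j
      rw [Matrix.smul_apply, Matrix.of_apply, Matrix.of_apply, smul_eq_mul]
      by_cases hij : (i : ℕ) + (j : ℕ) = 0
      · rw [show (i : ℕ) = 0 by omega, show (j : ℕ) = 0 by omega]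
        simp
      · obtain ⟨s, hs⟩ : ∃ s, (i : ℕ) + (j : ℕ) = s + 1 := ⟨(i : ℕ) + (j : ℕ) - 1, by omega⟩
        rw [show (i : ℕ) + 1 + ((j : ℕ) + 1) - 2 = s + 1 by omega, hs, Nat.add_sub_cancel,
          schroeder_eq]
        ring
    rw [e, pf_smul, h, ← sum_two_mul, pow_add, Finset.prod_mul_distrib,
      Finset.prod_pow_eq_pow_sum]
    ring
  · have h := pf_semi n (X : ℚ[X]) (1 + X)
    have e : (Matrix.of fun i j : Fin (2 * n) => (((j : ℕ) : ℚ[X]) - (i : ℕ)) *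
        narayana (((i : ℕ) + 1) + ((j : ℕ) + 1) - 2)) =
        (X : ℚ[X]) • (Matrix.of fun i j : Fin (2 * n) => (((j : ℕ) : ℚ[X]) - (i : ℕ)) *
          Lm 4 (X : ℚ[X]) ((X + C (1 + X)) ^ ((i : ℕ) + (j : ℕ) - 1))) := by
      ext1 i j
      rw [Matrix.smul_apply, Matrix.of_apply, Matrix.of_apply, smul_eq_mul]
      by_cases hij : (i : ℕ) + (j : ℕ) = 0
      · rw [show (i : ℕ) = 0 by omega, show (j : ℕ) = 0 by omega]
        simp
      · obtain ⟨s, hs⟩ : ∃ s, (i : ℕ) + (j : ℕ) = s + 1 := ⟨(i : ℕ) + (j : ℕ) - 1, by omega⟩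
        rw [show (i : ℕ) + 1 + ((j : ℕ) + 1) - 2 = s + 1 by omega, hs, Nat.add_sub_cancel,
          narayana_eq]
        ring
    rw [e, pf_smul, h, ← sum_two_mul, pow_add, Finset.prod_mul_distrib,
      Finset.prod_pow_eq_pow_sum]
    ring

end Pool.Agent.Results.MP_c5a58e_co.FourPfaffians
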